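import Pool.Agent.MP_1246c0_nt.H25.SpecA

/-! Chains of quadratic extensions are determined by the decomposition of primes. -/

namespace Pool.Agent.MP_1246c0_nt.H25

open NumberField IsDedekindDomain Pool.Agent.MP_db5b97_nt.H85
open Pool.Agent.MP_1246c0_nt.H12

namespace BAU

theorem pm {a b : Om} (h : a * a = b * b) : a = b ∨ a = -b := mul_self_eq_mul_self_iff.1 h

theorem mem_adj (L : IntermediateField ℚ Om) (z : Om) (h : Ga) :
    h ∈ (L ⊔ IntermediateField.adjoin ℚ {z}).fixingSubgroup ↔ h ∈ L.fixingSubgroup ∧ h z = z := by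
  rw [IntermediateField.fixingSubgroup_sup, Subgroup.mem_inf]
  refine and_congr_right fun _ => ⟨fun h1 => ?_, fun h1 => ?_⟩
  · exact (IntermediateField.mem_fixingSubgroup_iff _ _).1 h1 z
      (IntermediateField.mem_adjoin_simple_self ℚ z)
  · have h2 : IntermediateField.adjoin ℚ {z} ≤
        IntermediateField.fixedField (MulAction.stabilizer Ga z) := by
      rw [IntermediateField.adjoin_simple_le_iff, IntermediateField.mem_fixedField_iff]
      exact fun f hf => hf
    exact (IntermediateField.le_iff_le _ _).1 h2 h1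

theorem ch_le : ∀ (J : ℕ) (L E : IntermediateField ℚ Om), Ch J L E → L ≤ E
  | 0, _, _, h => le_of_eq (Eq.symm h)
  | J + 1, _, _, ⟨_, _, _, h⟩ => le_sup_left.trans (ch_le J _ _ h)

theorem nf (L : IntermediateField ℚ Om) [NumberField L] (z : Om) :
    NumberField (L ⊔ IntermediateField.adjoin ℚ {z} : IntermediateField ℚ Om) :=
  have : FiniteDimensional ℚ (IntermediateField.adjoin ℚ {z}) :=
    IntermediateField.finiteDimensional_adjoin
      fun x _ => (Algebra.IsAlgebraic.isAlgebraic x).isIntegral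
  have : FiniteDimensional ℚ (L ⊔ IntermediateField.adjoin ℚ {z} : IntermediateField ℚ Om) :=
    IntermediateField.finiteDimensional_sup _ _
  NumberField.of_module_finite ℚ _

theorem sqr_ne {L : IntermediateField ℚ Om} {x : Om} (h : sqr x ∉ L) : sqr x ≠ 0 :=
  fun e => h (e ▸ L.zero_mem)

theorem act {x : Om} {h : Ga} (e : h x = x) : h (sqr x) = sqr x ∨ h (sqr x) = -sqr x :=
  pm (by rw [← map_mul, sqr_mul, e])

theorem idx (L : IntermediateField ℚ Om) {x : Om} (hx : x ∈ L) (hn : sqr x ∉ L) :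
    (L ⊔ IntermediateField.adjoin ℚ {sqr x}).fixingSubgroup.relIndex L.fixingSubgroup = 2 := by
  have h0 := sqr_ne hn
  have hne : -sqr x ≠ sqr x := fun e => h0 (by linear_combination (-1 / 2 : Om) * e)
  have fx : ∀ h ∈ L.fixingSubgroup, h x = x := fun h hh =>
    (IntermediateField.mem_fixingSubgroup_iff _ _).1 hh x hx
  obtain ⟨a, ha, ha'⟩ : ∃ a ∈ L.fixingSubgroup, a (sqr x) ≠ sqr x := by
    by_contra hc
    push Not at hc
    refine hn ?_
    rw [← InfiniteGalois.fixedField_fixingSubgroup L, IntermediateField.mem_fixedField_iff]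
    exact hc
  have ea : a (sqr x) = -sqr x := (act (fx a ha)).resolve_left ha'
  rw [Subgroup.relIndex, Subgroup.index_eq_two_iff]
  refine ⟨⟨a, ha⟩, fun b => ?_⟩
  rw [Subgroup.mem_subgroupOf, Subgroup.mem_subgroupOf, mem_adj, mem_adj]
  have e1 : ((b * ⟨a, ha⟩ : L.fixingSubgroup) : Ga) (sqr x) = -(b : Ga) (sqr x) := by
    show (b : Ga) (a (sqr x)) = _
    rw [ea, map_neg]
  rcases act (fx b b.2) with e | e
  · refine Or.inr ⟨⟨b.2, e⟩, fun h => hne ?_⟩
    have := h.2
    rwa [e1, e] at this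
  · refine Or.inl ⟨⟨(b * ⟨a, ha⟩ : L.fixingSubgroup).2, ?_⟩, fun h => hne ?_⟩
    · rw [e1, e, neg_neg]
    · rw [← e]; exact h.2

theorem fin : ∀ (J : ℕ) (L E : IntermediateField ℚ Om) [NumberField L], Ch J L E →
    L ≤ E ∧ NumberField E ∧ E.fixingSubgroup.relIndex L.fixingSubgroup = 2 ^ J
  | 0, L, E, i, h => by
    obtain rfl : E = L := h
    exact ⟨le_rfl, i, by simp⟩
  | J + 1, L, E, _, ⟨x, hx, hn, h⟩ => by
    have := nf L (sqr x)
    obtain ⟨h1, h2, h3⟩ := fin J _ E h
    refine ⟨le_sup_left.trans h1, h2, ?_⟩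
    rw [← Subgroup.relIndex_mul_relIndex _ _ _ (IntermediateField.fixingSubgroup_le h1)
      (IntermediateField.fixingSubgroup_le le_sup_left), h3, idx L hx hn, pow_succ]

theorem adj_neg (z : Om) :
    IntermediateField.adjoin ℚ {-z} = IntermediateField.adjoin ℚ {z} := by
  refine le_antisymm ?_ ?_ <;> rw [IntermediateField.adjoin_simple_le_iff]
  · exact neg_mem (IntermediateField.mem_adjoin_simple_self ℚ z)
  · simpa using neg_mem (IntermediateField.mem_adjoin_simple_self ℚ (-z))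

theorem map : ∀ (J : ℕ) (L E : IntermediateField ℚ Om) (g : Ga), Ch J L E →
    Ch J (L.map g.toAlgHom) (E.map g.toAlgHom)
  | 0, L, E, g, h => by
    obtain rfl : E = L := h
    exact rfl
  | J + 1, L, E, g, ⟨x, hx, hn, h⟩ => by
    have e : sqr (g x) = g (sqr x) ∨ sqr (g x) = -g (sqr x) :=
      pm (by rw [← map_mul, sqr_mul, sqr_mul])
    have hn' : g (sqr x) ∉ L.map g.toAlgHom := by
      rintro ⟨y, hy, ey⟩
      exact hn (g.injective ey ▸ hy)
    refine ⟨g x, ⟨x, hx, rfl⟩, ?_, ?_⟩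
    · rcases e with e | e <;> rw [e]
      · exact hn'
      · exact fun h1 => hn' (by simpa using neg_mem h1)
    · have h1 := map J _ E g h
      rw [IntermediateField.map_sup, IntermediateField.adjoin_map, Set.image_singleton] at h1
      rcases e with e | e <;> rw [e]
      · exact h1
      · rw [adj_neg]; exact h1

theorem root (hS : SSQ) (hL : SLIFT) (hK : SKUM) (E : IntermediateField ℚ Om) [NumberField E]
    {x : Om} (hx : x ∈ E) (h0 : sqr x ≠ 0)
    (h : ∀ Q : Ideal OO, Q.IsMaximal → (2 : OO) ∉ Q → ∀ h ∈ E.fixingSubgroup, Dc Q h →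
      h (sqr x) = sqr x) : sqr x ∈ E := by
  have hx0 : (⟨x, hx⟩ : E) ≠ 0 := fun e => h0 (by
    have : x = 0 := congrArg Subtype.val e
    have h1 := sqr_mul x
    rw [this] at h1 ⊢
    exact mul_self_eq_zero.1 h1)
  obtain ⟨z, hz⟩ := hS E (Un.mk ⟨x, hx⟩ hx0) (by
    refine ((ord_finite E (Un.mk ⟨x, hx⟩ hx0)).preimage
      (f := fun w : Pr E 2 => w.1) Subtype.val_injective.injOn).subset fun w hw h1 => hw ?_
    obtain ⟨Q, hQ, hov⟩ := hL.ovr E w.1
    obtain ⟨F, hF, hfb⟩ := hL.frob E Q w.1 hQ hov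
    have hq : 0 < Ideal.absNorm w.1.asIdeal :=
      Nat.pos_of_ne_zero fun e => w.1.ne_bot (Ideal.absNorm_eq_zero_iff.1 e)
    have h2 : (2 : OO) ∉ Q := fun e => w.2 ((hov _).2 (by rw [map_natCast]; exact_mod_cast e))
    rw [← hK.frb E Q w _ F hQ hov h1 hF hfb]
    exact if_pos (h Q hQ h2 F hF ((hL.grp Q hQ).2.2.2.1 _ _ hq hfb)))
  have e : x = (z.val : Om) * z.val := by
    have h1 := congrArg (fun u : Un E => (u.val : Om)) hz
    simpa [pow_two] using h1
  rcases pm ((sqr_mul x).trans e) with e | e <;> rw [e]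
  · exact z.val.2
  · exact neg_mem z.val.2

theorem bau (hS : SSQ) (hL : SLIFT) (hK : SKUM) : ∀ (J : ℕ) (L E E' : IntermediateField ℚ Om)
    [NumberField E], Ch J L E' → L ≤ E →
    (∀ Q : Ideal OO, Q.IsMaximal → (2 : OO) ∉ Q → ∀ h ∈ E.fixingSubgroup, Dc Q h →
      h ∈ E'.fixingSubgroup) → E' ≤ E
  | 0, L, E, E', _, h, hle, _ => by
    obtain rfl : E' = L := h
    exact hle
  | J + 1, L, E, E', _, ⟨x, hx, hn, h⟩, hle, hd => by
    refine bau hS hL hK J _ E E' h (sup_le hle ?_) hd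
    rw [IntermediateField.adjoin_simple_le_iff]
    refine root hS hL hK E (hle hx) (sqr_ne hn) fun Q hQ h2 g hg hdc => ?_
    exact ((mem_adj L _ g).1
      (IntermediateField.fixingSubgroup_le (ch_le J _ _ h) (hd Q hQ h2 g hg hdc))).2

end BAU

theorem rowBAU : OfBAU := fun hS hL hK => ⟨BAU.fin, BAU.map, BAU.bau hS hL hK⟩

end Pool.Agent.MP_1246c0_nt.H25
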